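import Pool.Agent.helper22.RG9.Spec

/-!
# Project rg9 (MP_a2a22c_al), row ABG: multiples of elements of the span of logarithms
-/

set_option autoImplicit false

namespace Pool.Agent.RG9

open Matrix Pool.Agent.H48SL Pool.Agent.UG

theorem ABG (hLGF : LGF_stmt) : ABG_stmt := by
  intro n X hab hU Z hZ
  obtain ⟨-, h2, h3, h4, -, -, -, h1⟩ := hLGF n
  unfold LS at hZ
  induction hZ using Submodule.span_induction with
  | mem Z h =>
    obtain ⟨x, hx, rfl⟩ := h
    exact ⟨1, le_rfl, x, hx, by rw [Nat.cast_one, one_smul]⟩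
  | zero =>
    refine ⟨1, le_rfl, 1, X.one_mem, ?_⟩
    rw [smul_zero, one_pow, h1]
  | add Z W _ _ hZ hW =>
    obtain ⟨k, hk, x, hx, ex⟩ := hZ
    obtain ⟨l, hl, y, hy, ey⟩ := hW
    refine ⟨k * l, Nat.mul_pos hk hl, x ^ l * y ^ k, X.mul_mem (X.pow_mem hx l) (X.pow_mem hy k), ?_⟩
    have hc : Commute (x ^ l) (y ^ k) := Commute.pow_pow (hab x hx y hy) l k
    have e1 : (x ^ l * y ^ k) ^ n.factorial = (x ^ n.factorial) ^ l * (y ^ n.factorial) ^ k := by
      rw [hc.mul_pow, ← pow_mul, ← pow_mul, ← pow_mul, ← pow_mul, Nat.mul_comm l, Nat.mul_comm k]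
    obtain ⟨ux, lx⟩ := h4 (x ^ n.factorial) (hU x hx) l
    obtain ⟨uy, ly⟩ := h4 (y ^ n.factorial) (hU y hy) k
    have hc3 : (x ^ n.factorial) ^ l * (y ^ n.factorial) ^ k = (y ^ n.factorial) ^ k * (x ^ n.factorial) ^ l :=
      Commute.pow_pow (Commute.pow_pow (hab x hx y hy) _ _) l k
    rw [e1, (h2 _ _ ux uy hc3).2, lx, ly, ← ex, ← ey, smul_add, smul_smul, smul_smul]
    push_cast
    rw [mul_comm (l : ℚ) (k : ℚ)]
  | smul a Z _ hZ =>
    obtain ⟨k, hk, x, hx, ex⟩ := hZ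
    have hq : (a.den : ℚ) * a = a.num := Rat.den_mul_eq_num a
    have e1 : ((k * a.den : ℕ) : ℚ) • a • Z = (a.num : ℚ) • lg (x ^ n.factorial) := by
      rw [← ex, smul_smul, smul_smul]
      congr 1
      push_cast
      rw [← hq]
      ring
    rcases Int.eq_nat_or_neg a.num with ⟨p, hp⟩
    obtain ⟨up, lp⟩ := h4 (x ^ n.factorial) (hU x hx) p
    have e2 : (x ^ p) ^ n.factorial = (x ^ n.factorial) ^ p := by
      rw [← pow_mul, ← pow_mul, Nat.mul_comm]
    rcases hp with hp | hp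
    · refine ⟨k * a.den, Nat.mul_pos hk a.den_pos, x ^ p, X.pow_mem hx p, ?_⟩
      rw [e1, e2, lp, hp]
      push_cast
      rfl
    · refine ⟨k * a.den, Nat.mul_pos hk a.den_pos, (x ^ p)⁻¹, X.inv_mem (X.pow_mem hx p), ?_⟩
      rw [e1, inv_pow, e2, (h3 _ up).2, lp, hp]
      push_cast
      rw [neg_smul]

end Pool.Agent.RG9
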